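import Pool.Agent.Helper91K1.PQ.Stm

set_option autoImplicit false

/-!
Project PQ of helper91, piece FM: the first moment (helper15).
-/

open MeasureTheory Filter Topology Finset

namespace Pool.Agent.Helper15.PQ

open Pool.Agent.Helper91K1.PQ

/-- squares and ordered pairs -/
lemma sq_card (s : Finset ℕ) :
    s.card ^ 2 = s.card + 2 * ((s ×ˢ s).filter (fun p => p.1 < p.2)).card := by
  have h1 : ((s ×ˢ s).filter (fun p => p.1 < p.2)).card = ∑ x ∈ s, ∑ y ∈ s, if x < y then 1 else 0 := by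
    rw [Finset.card_filter, Finset.sum_product]
  have h2 : (∑ x ∈ s, ∑ y ∈ s, if x < y then 1 else 0) = ∑ x ∈ s, ∑ y ∈ s, if y < x then 1 else 0 := by
    rw [Finset.sum_comm]
  have h3 : (∑ x ∈ s, ∑ y ∈ s, if x = y then 1 else 0) = s.card := by
    rw [Finset.card_eq_sum_ones]
    refine Finset.sum_congr rfl fun x hx => ?_
    rw [Finset.sum_ite_eq, if_pos hx]
  have h4 : s.card ^ 2 = ∑ x ∈ s, ∑ y ∈ s, 1 := by
    simp [sq]
  have h5 : (∑ x ∈ s, ∑ y ∈ s, 1) = (∑ x ∈ s, ∑ y ∈ s, if x = y then 1 else 0) +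
      ((∑ x ∈ s, ∑ y ∈ s, if x < y then 1 else 0) + ∑ x ∈ s, ∑ y ∈ s, if y < x then 1 else 0) := by
    rw [← Finset.sum_add_distrib, ← Finset.sum_add_distrib]
    refine Finset.sum_congr rfl fun x _ => ?_
    rw [← Finset.sum_add_distrib, ← Finset.sum_add_distrib]
    refine Finset.sum_congr rfl fun y _ => ?_
    rcases lt_trichotomy x y with h | h | h
    · simp [h, h.ne, h.not_gt]
    · simp [h]
    · simp [h, h.ne', h.not_gt]
  rw [h4, h5, h3, ← h2, ← h1]
  ring

/-- the index of the window -/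
def idx (a H p : ℕ) : ℕ := (p - a - 1) / H

/-- the primes -/
def PP (a L : ℕ) : Finset ℕ := (Ioc a (a + L)).filter Nat.Prime

/-- the pairs of primes in the same window -/
def TT (a L H : ℕ) : Finset (ℕ × ℕ) :=
  (PP a L ×ˢ PP a L).filter (fun p => p.1 < p.2 ∧ idx a H p.1 = idx a H p.2)

lemma count (a L H : ℕ) (hH : 0 < H) (hL : 0 < L) :
    (((PP a L).card : ℕ) : ℝ) ^ 2 ≤
      (((L - 1) / H + 1 : ℕ) : ℝ) * ((PP a L).card + 2 * (TT a L H).card) := by
  classical
  set K := (L - 1) / H + 1 with hK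
  have hmap : ∀ p ∈ PP a L, idx a H p ∈ range K := by
    intro p hp
    unfold PP at hp
    rw [Finset.mem_filter, Finset.mem_Ioc] at hp
    unfold idx
    rw [Finset.mem_range, hK, Nat.lt_succ_iff]
    exact Nat.div_le_div_right (by omega)
  have h1 : (PP a L).card = ∑ i ∈ range K, ((PP a L).filter (fun p => idx a H p = i)).card :=
    Finset.card_eq_sum_card_fiberwise hmap
  have h2 : (TT a L H).card = ∑ i ∈ range K,
      ((((PP a L).filter (fun p => idx a H p = i)) ×ˢ ((PP a L).filter (fun p => idx a H p = i))).filter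
        (fun p => p.1 < p.2)).card := by
    rw [Finset.card_eq_sum_card_fiberwise (f := fun p : ℕ × ℕ => idx a H p.1) (t := range K)]
    · refine Finset.sum_congr rfl fun i _ => ?_
      congr 1
      ext p
      unfold TT
      simp only [Finset.mem_filter, Finset.mem_product]
      constructor
      · rintro ⟨⟨⟨h3, h4⟩, h5, h6⟩, h7⟩
        exact ⟨⟨⟨h3, h7⟩, h4, h6 ▸ h7⟩, h5⟩
      · rintro ⟨⟨⟨h3, h7⟩, h4, h8⟩, h5⟩
        exact ⟨⟨⟨h3, h4⟩, h5, h7.trans h8.symm⟩, h7⟩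
    · intro p hp
      unfold TT at hp
      simp only [Finset.coe_filter, Finset.mem_product, Set.mem_setOf_eq] at hp
      exact hmap p.1 hp.1.1
  have h3 : ((∑ i ∈ range K, (((PP a L).filter (fun p => idx a H p = i)).card : ℝ))) ^ 2 ≤
      ((range K).card : ℝ) * ∑ i ∈ range K, (((PP a L).filter (fun p => idx a H p = i)).card : ℝ) ^ 2 :=
    sq_sum_le_card_mul_sum_sq
  have h4 : (((PP a L).card : ℕ) : ℝ) = ∑ i ∈ range K, (((PP a L).filter (fun p => idx a H p = i)).card : ℝ) := by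
    rw [h1]
    push_cast
    rfl
  have h5 : ∑ i ∈ range K, (((PP a L).filter (fun p => idx a H p = i)).card : ℝ) ^ 2 =
      (PP a L).card + 2 * (TT a L H).card := by
    rw [h4, h2]
    push_cast
    rw [Finset.mul_sum, ← Finset.sum_add_distrib]
    refine Finset.sum_congr rfl fun i _ => ?_
    have := sq_card ((PP a L).filter (fun p => idx a H p = i))
    exact_mod_cast this
  rw [Finset.card_range, h5, ← h4] at h3
  exact h3

lemma inj (a L H : ℕ) (ha : 2 ≤ a) (hH : 0 < H) :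
    (TT a L H).card ≤ ∑ m ∈ Ioc a (a + L), rp H m := by
  classical
  have hodd : ∀ p ∈ PP a L, p % 2 = 1 ∧ a < p ∧ p ≤ a + L ∧ p.Prime := by
    intro p hp
    unfold PP at hp
    rw [Finset.mem_filter, Finset.mem_Ioc] at hp
    refine ⟨?_, hp.1.1, hp.1.2, hp.2⟩
    rcases hp.2.eq_two_or_odd with h | h
    · omega
    · exact h
  have hT : ∀ p ∈ TT a L H, p.1 % 2 = 1 ∧ p.2 % 2 = 1 ∧ p.1 < p.2 ∧ p.2 - p.1 < H ∧ a < p.1 ∧
      p.2 ≤ a + L ∧ p.1.Prime ∧ p.2.Prime := by
    intro p hp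
    unfold TT at hp
    rw [Finset.mem_filter, Finset.mem_product] at hp
    obtain ⟨⟨h1, h2⟩, h3, h4⟩ := hp
    obtain ⟨o1, l1, u1, q1⟩ := hodd _ h1
    obtain ⟨o2, l2, u2, q2⟩ := hodd _ h2
    refine ⟨o1, o2, h3, ?_, l1, u2, q1, q2⟩
    unfold idx at h4
    have e1 := Nat.div_add_mod (p.1 - a - 1) H
    have e2 := Nat.div_add_mod (p.2 - a - 1) H
    have m1 := Nat.mod_lt (p.1 - a - 1) hH
    have m2 := Nat.mod_lt (p.2 - a - 1) hH
    rw [h4] at e1
    omega
  have hsum : ∑ m ∈ Ioc a (a + L), rp H m = ((Ioc a (a + L)).sigma (fun m =>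
      (Icc 1 H).filter (fun j => (m - j).Prime ∧ (m + j).Prime))).card := by
    rw [Finset.card_sigma]
    rfl
  rw [hsum]
  refine Finset.card_le_card_of_injOn (fun p => ⟨(p.1 + p.2) / 2, (p.2 - p.1) / 2⟩) ?_ ?_
  · intro p hp
    obtain ⟨o1, o2, h3, h4, l1, u2, q1, q2⟩ := hT p hp
    rw [Finset.mem_coe, Finset.mem_sigma]
    simp only [Finset.mem_Ioc, Finset.mem_filter, Finset.mem_Icc]
    have e1 : (p.1 + p.2) / 2 - (p.2 - p.1) / 2 = p.1 := by omega
    have e2 : (p.1 + p.2) / 2 + (p.2 - p.1) / 2 = p.2 := by omega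
    rw [e1, e2]
    refine ⟨⟨by omega, by omega⟩, ⟨by omega, by omega⟩, q1, q2⟩
  · intro p hp q hq hpq
    obtain ⟨o1, o2, h3, h4, l1, u2, q1, q2⟩ := hT p hp
    obtain ⟨o1', o2', h3', h4', l1', u2', q1', q2'⟩ := hT q hq
    simp only [Sigma.mk.injEq, heq_eq_eq] at hpq
    obtain ⟨e1, e2⟩ := hpq
    refine Prod.ext ?_ ?_
    · omega
    · omega

theorem t_FM : S_FM := by
  intro c hc
  refine ⟨c ^ 2 / 8, by positivity, ⌈Real.exp (max (4 / c) 1)⌉₊ + 1, ?_⟩
  intro L hL a ha H hH hHL hpb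
  have hL1 : Real.exp (max (4 / c) 1) ≤ L := by
    have h1 := Nat.le_ceil (Real.exp (max (4 / c) 1))
    have h2 : ((⌈Real.exp (max (4 / c) 1)⌉₊ : ℕ) : ℝ) ≤ L := by
      exact_mod_cast (by omega : ⌈Real.exp (max (4 / c) 1)⌉₊ ≤ L)
    linarith
  have hLpos : (0 : ℝ) < L := lt_of_lt_of_le (Real.exp_pos _) hL1
  have hlog : max (4 / c) 1 ≤ Real.log L := by
    rw [Real.le_log_iff_exp_le hLpos]
    exact hL1
  have hlog1 : 1 ≤ Real.log L := (le_max_right _ _).trans hlog
  have hlog4 : 4 / c ≤ Real.log L := (le_max_left _ _).trans hlog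
  have hlog0 : 0 < Real.log L := by linarith
  have hHpos : (0 : ℝ) < H := lt_of_lt_of_le (by positivity) hH
  have hHn : 0 < H := by exact_mod_cast hHpos
  have hLn : 0 < L := by exact_mod_cast hLpos
  have h1 := count a L H hHn hLn
  have h2 : (((TT a L H).card : ℕ) : ℝ) ≤ ∑ m ∈ Ioc a (a + L), (rp H m : ℝ) := by
    exact_mod_cast inj a L H ha hHn
  have hn : (((PP a L).card : ℕ) : ℝ) = pb a L := rfl
  rw [hn] at h1
  set n : ℝ := (pb a L : ℝ) with hndef
  set t : ℝ := (((TT a L H).card : ℕ) : ℝ) with ht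
  have ht0 : 0 ≤ t := by positivity
  have hn0 : 0 ≤ n := by positivity
  have hK : (((L - 1) / H + 1 : ℕ) : ℝ) ≤ 2 * L / H := by
    have e1 : (((L - 1) / H : ℕ) : ℝ) ≤ (L : ℝ) / H := by
      refine (Nat.cast_div_le (α := ℝ)).trans ?_
      gcongr
      exact Nat.sub_le _ _
    have e2 : (1 : ℝ) ≤ (L : ℝ) / H := by
      rw [le_div_iff₀ hHpos, one_mul]
      exact_mod_cast hHL
    push_cast
    calc (((L - 1) / H : ℕ) : ℝ) + 1 ≤ (L : ℝ) / H + (L : ℝ) / H := by linarith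
      _ = 2 * L / H := by ring
  have h3 : n ^ 2 ≤ 2 * L / H * (n + 2 * t) :=
    h1.trans (mul_le_mul_of_nonneg_right hK (by positivity))
  have h4 : n ^ 2 * H ≤ 2 * L * (n + 2 * t) := by
    rw [div_mul_eq_mul_div, le_div_iff₀ hHpos] at h3
    exact h3
  set y : ℝ := c * L / Real.log L with hy
  have hy0 : 0 < y := by positivity
  -- `y H ≥ 4 L`
  have h5 : 4 * L ≤ y * H := by
    have e1 : 4 * Real.log L ≤ c * H := by
      have e2 : 4 ≤ c * Real.log L := by
        rw [div_le_iff₀ hc] at hlog4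
        linarith
      calc 4 * Real.log L ≤ (c * Real.log L) * Real.log L := by gcongr
        _ = c * Real.log L ^ 2 := by ring
        _ ≤ c * H := by gcongr
    rw [hy, div_mul_eq_mul_div, le_div_iff₀ hlog0]
    calc 4 * (L : ℝ) * Real.log L = L * (4 * Real.log L) := by ring
      _ ≤ L * (c * H) := by gcongr
      _ = c * L * H := by ring
  have h6 : n * y ≤ n ^ 2 := by
    rw [sq]
    gcongr
  have h7 : n * (y * H) ≤ 2 * L * n + 4 * L * t := by
    have : n * y * H ≤ n ^ 2 * H := by gcongr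
    linarith
  have h8 : n * (y * H) ≤ 8 * L * t := by
    have e1 : 4 * L * n ≤ n * (y * H) := by
      calc 4 * L * n = n * (4 * L) := by ring
        _ ≤ _ := by gcongr
    linarith
  have h9 : y * (y * H) ≤ 8 * L * t := (mul_le_mul_of_nonneg_right hpb (by positivity)).trans h8
  refine le_trans ?_ h2
  have e3 : c ^ 2 / 8 * L * H / Real.log L ^ 2 = y * (y * H) / (8 * L) := by
    rw [hy]
    field_simp
  rw [e3, div_le_iff₀ (by positivity)]
  linarith

end Pool.Agent.Helper15.PQ
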